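import Mathlib

set_option autoImplicit false

namespace Pool.Agent.Results.MP_18d2fb_an.Neumann

open Filter Topology BoundedContinuousFunction

variable (𝕜 : Type) [RCLike 𝕜]

/-- the Banach space of bounded sequences -/
abbrev X := ℕ →ᵇ 𝕜

/-- weighted backward shift as a function -/
noncomputable def Vfun (x : X 𝕜) : X 𝕜 :=
  BoundedContinuousFunction.ofNormedAddCommGroupDiscrete
    (fun n => x (n + 1) / ((n : 𝕜) + 1)) ‖x‖ (by
      intro n
      rw [norm_div]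
      have h1 : ‖(n : 𝕜) + 1‖ = (n : ℝ) + 1 := by
        have : ((n : 𝕜) + 1) = ((n + 1 : ℕ) : 𝕜) := by push_cast; rfl
        rw [this, RCLike.norm_natCast]; push_cast; rfl
      rw [h1]
      apply div_le_of_le_mul₀ (by positivity) (norm_nonneg _)
      have h2 := x.norm_coe_le_norm (n + 1)
      have h3 : (0:ℝ) ≤ n := by positivity
      nlinarith [norm_nonneg x])

@[simp] lemma Vfun_apply (x : X 𝕜) (n : ℕ) : Vfun 𝕜 x n = x (n + 1) / ((n : 𝕜) + 1) := rfl

/-- weighted backward shift -/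
noncomputable def V : X 𝕜 →L[𝕜] X 𝕜 :=
  LinearMap.mkContinuous
    { toFun := Vfun 𝕜
      map_add' := by intro x y; ext n; simp [add_div]
      map_smul' := by intro c x; ext n; simp [mul_div_assoc] } 1 (by
    intro x
    rw [one_mul]
    apply (BoundedContinuousFunction.norm_le (norm_nonneg _)).mpr
    intro n
    show ‖x (n + 1) / ((n : 𝕜) + 1)‖ ≤ ‖x‖
    rw [norm_div]
    have h1 : ‖(n : 𝕜) + 1‖ = (n : ℝ) + 1 := by
      have : ((n : 𝕜) + 1) = ((n + 1 : ℕ) : 𝕜) := by push_cast; rfl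
      rw [this, RCLike.norm_natCast]; push_cast; rfl
    rw [h1]
    apply div_le_of_le_mul₀ (by positivity) (norm_nonneg _)
    have h2 := x.norm_coe_le_norm (n + 1)
    have h3 : (0:ℝ) ≤ n := by positivity
    nlinarith [norm_nonneg x])

@[simp] lemma V_apply (x : X 𝕜) (n : ℕ) : V 𝕜 x n = x (n + 1) / ((n : 𝕜) + 1) := rfl

lemma Vpow_apply (k : ℕ) (x : X 𝕜) (n : ℕ) :
    ((V 𝕜 ^ k) x) n = x (n + k) * ((n.factorial : 𝕜) / ((n + k).factorial : 𝕜)) := by
  induction k generalizing n with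
  | zero =>
    have : (n.factorial : 𝕜) ≠ 0 := by exact_mod_cast n.factorial_ne_zero
    simp [div_self this]
  | succ k ih =>
    rw [pow_succ', mul_apply_eq_comp, V_apply, ih]
    have h1 : ((n : 𝕜) + 1) ≠ 0 := by exact_mod_cast n.succ_ne_zero
    have e : n + 1 + k = n + (k + 1) := by ring
    rw [e, Nat.factorial_succ]
    push_cast
    field_simp

lemma Vpow_norm (k : ℕ) (x : X 𝕜) : ‖(V 𝕜 ^ k) x‖ ≤ ‖x‖ / (k.factorial : ℝ) := by
  apply (BoundedContinuousFunction.norm_le (by positivity)).mpr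
  intro n
  rw [Vpow_apply, norm_mul, norm_div, RCLike.norm_natCast, RCLike.norm_natCast]
  have h1 := x.norm_coe_le_norm (n + k)
  have h2 : (n.factorial : ℝ) / ((n + k).factorial : ℝ) ≤ 1 / (k.factorial : ℝ) := by
    rw [div_le_div_iff₀ (by positivity) (by positivity), one_mul]
    have := Nat.le_of_dvd (Nat.factorial_pos _) (Nat.factorial_mul_factorial_dvd_factorial_add n k)
    exact_mod_cast this
  calc _ ≤ ‖x‖ * (1 / (k.factorial : ℝ)) := mul_le_mul h1 h2 (by positivity) (norm_nonneg _)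
    _ = _ := by ring

omit [RCLike 𝕜] in
/-- In a Banach space: if `‖T ^ k x‖ ≤ ‖x‖ / k!` for all `k`, then `1 - μ T` has an inverse
commuting with `T`. -/
lemma exists_inverse (𝕜 : Type) [RCLike 𝕜] (Y : Type) [NormedAddCommGroup Y] [NormedSpace 𝕜 Y]
    [CompleteSpace Y] (T : Y →L[𝕜] Y) (hT : ∀ (k : ℕ) (x : Y), ‖(T ^ k) x‖ ≤ ‖x‖ / (k.factorial : ℝ))
    (μ : 𝕜) : ∃ W : Y →L[𝕜] Y, (∀ x, W x - μ • T (W x) = x) ∧ (∀ x, W (x - μ • T x) = x) ∧
      (∀ x, W (T x) = T (W x)) := by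
  have htend := FloorSemiring.tendsto_pow_div_factorial_atTop ‖μ‖
  obtain ⟨k, hk⟩ := ((tendsto_order.mp htend).2 1 one_pos).exists
  have hn : ‖(μ • T) ^ k‖ < 1 := by
    rw [smul_pow, norm_smul, norm_pow]
    have : ‖T ^ k‖ ≤ 1 / (k.factorial : ℝ) := by
      apply ContinuousLinearMap.opNorm_le_bound _ (by positivity)
      intro x
      exact (hT k x).trans (le_of_eq (by ring))
    calc ‖μ‖ ^ k * ‖T ^ k‖ ≤ ‖μ‖ ^ k * (1 / (k.factorial : ℝ)) := by gcongr
      _ = ‖μ‖ ^ k / (k.factorial : ℝ) := by ring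
      _ < 1 := hk
  have h1 : IsUnit (1 - (μ • T) ^ k) := (Units.oneSub _ hn).isUnit
  have h2 : (1 - μ • T) * (∑ i ∈ Finset.range k, (μ • T) ^ i) = 1 - (μ • T) ^ k :=
    mul_neg_geom_sum _ _
  have hc : Commute (1 - μ • T) (∑ i ∈ Finset.range k, (μ • T) ^ i) := by
    apply Commute.sum_right
    intro i _
    exact ((Commute.one_left _).sub_left (Commute.refl _)).pow_right i
  rw [← h2] at h1
  obtain ⟨u, hu⟩ := (hc.isUnit_mul_iff.mp h1).1
  have hu1 : (1 - μ • T) * (↑u⁻¹ : Y →L[𝕜] Y) = 1 := by rw [← hu]; exact u.mul_inv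
  have hu2 : (↑u⁻¹ : Y →L[𝕜] Y) * (1 - μ • T) = 1 := by rw [← hu]; exact u.inv_mul
  have hcT : Commute (↑u⁻¹ : Y →L[𝕜] Y) T := by
    have : Commute (u : Y →L[𝕜] Y) T := by
      rw [hu]
      exact (Commute.one_left T).sub_left ((Commute.refl T).smul_left μ)
    exact this.units_inv_left
  refine ⟨(↑u⁻¹ : Y →L[𝕜] Y), ?_, ?_, ?_⟩
  · intro x
    have := congrArg (fun F : Y →L[𝕜] Y => F x) hu1
    simpa using this
  · intro x
    have := congrArg (fun F : Y →L[𝕜] Y => F x) hu2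
    simpa using this
  · intro x
    exact congrArg (fun F : Y →L[𝕜] Y => F x) hcT.eq

/-- the projective limit of `X ← X ← X ← ...` along `V` -/
noncomputable def E : Submodule 𝕜 (ℕ → X 𝕜) where
  carrier := {z | ∀ m, V 𝕜 (z (m + 1)) = z m}
  add_mem' := by intro a b ha hb m; simp [ha m, hb m]
  zero_mem' := by intro m; simp
  smul_mem' := by intro c a ha m; simp [ha m]

lemma mem_E (z : ℕ → X 𝕜) : z ∈ E 𝕜 ↔ ∀ m, V 𝕜 (z (m + 1)) = z m := Iff.rfl

lemma E_closed : IsClosed (E 𝕜 : Set (ℕ → X 𝕜)) := by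
  have : (E 𝕜 : Set (ℕ → X 𝕜)) = ⋂ m, {z | V 𝕜 (z (m + 1)) = z m} := by
    ext z; simp [mem_E]
  rw [this]
  exact isClosed_iInter fun m => isClosed_eq (by fun_prop) (by fun_prop)

lemma Vpow_mem {z : ℕ → X 𝕜} (hz : z ∈ E 𝕜) (m k : ℕ) : (V 𝕜 ^ k) (z (m + k)) = z m := by
  induction k with
  | zero => simp
  | succ k ih =>
    rw [pow_succ, mul_apply_eq_comp, ← add_assoc, hz (m + k), ih]

/-- the shift -/
noncomputable def U : E 𝕜 →L[𝕜] E 𝕜 where
  toFun z := ⟨fun m => z.1 (m + 1), fun m => z.2 (m + 1)⟩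
  map_add' := by intro x y; rfl
  map_smul' := by intro c x; rfl
  cont := by
    apply Continuous.subtype_mk
    apply continuous_pi
    intro m
    exact (continuous_apply (m + 1)).comp continuous_subtype_val

@[simp] lemma U_apply (z : E 𝕜) (m : ℕ) : (U 𝕜 z).1 m = z.1 (m + 1) := rfl

lemma Upow_apply (k : ℕ) (z : E 𝕜) (m : ℕ) : ((U 𝕜 ^ k) z).1 m = z.1 (m + k) := by
  induction k generalizing m with
  | zero => simp
  | succ k ih =>
    rw [pow_succ', mul_apply_eq_comp, U_apply, ih, add_right_comm, add_assoc]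

/-- the seminorms -/
noncomputable def p : SeminormFamily 𝕜 (E 𝕜) ℕ := fun m =>
  (normSeminorm 𝕜 (X 𝕜)).comp ((LinearMap.proj m).comp (E 𝕜).subtype)

lemma p_apply (m : ℕ) (z : E 𝕜) : p 𝕜 m z = ‖z.1 m‖ := rfl

lemma p_mono : Monotone (p 𝕜) := by
  apply monotone_nat_of_le_succ
  intro m z
  show ‖z.1 m‖ ≤ ‖z.1 (m + 1)‖
  rw [← z.2 m]
  have := Vpow_norm 𝕜 1 (z.1 (m + 1))
  simpa using this

lemma withSeminorms_p : WithSeminorms (p 𝕜) := by
  rw [SeminormFamily.withSeminorms_iff_nhds_eq_iInf]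
  rw [nhds_subtype_eq_comap, nhds_pi, Filter.pi, Filter.comap_iInf]
  congr 1
  ext1 m
  rw [Filter.comap_comap]
  have : (p 𝕜 m : E 𝕜 → ℝ) = (fun x : X 𝕜 => ‖x‖) ∘ (Function.eval m ∘ Subtype.val) := rfl
  rw [this, ← Filter.comap_comap, ← Filter.comap_comap]
  have h2 : Filter.comap (fun x : X 𝕜 => ‖x‖) (𝓝 0) = 𝓝 0 := comap_norm_nhds_zero
  rw [h2, ← Filter.comap_comap]
  rfl


lemma nontrivial_E : ∃ z : E 𝕜, z ≠ 0 := by
  let e : ℕ → X 𝕜 := fun m => BoundedContinuousFunction.ofNormedAddCommGroupDiscrete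
    (fun n => if n = m then (m.factorial : 𝕜) else 0) (m.factorial : ℝ) (by
      intro n
      split_ifs
      · rw [RCLike.norm_natCast]
      · simp)
  have he : ∀ m n, e m n = if n = m then (m.factorial : 𝕜) else 0 := fun m n => rfl
  have hmem : e ∈ E 𝕜 := by
    intro m
    ext n
    rw [V_apply, he, he]
    by_cases h : n = m
    · subst h
      rw [if_pos rfl, if_pos rfl, Nat.factorial_succ]
      have h1 : ((n : 𝕜) + 1) ≠ 0 := by exact_mod_cast n.succ_ne_zero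
      push_cast
      field_simp
    · rw [if_neg (by omega), if_neg h, zero_div]
  refine ⟨⟨e, hmem⟩, fun h => ?_⟩
  have h1 := congrArg (fun z : E 𝕜 => z.1 0 0) h
  have h2 : e 0 0 = 0 := h1
  rw [he] at h2
  simp at h2

lemma bijective (c : 𝕜) : Function.Bijective (fun z : E 𝕜 => z - c • U 𝕜 z) := by
  rcases eq_or_ne c 0 with rfl | hc
  · have : (fun z : E 𝕜 => z - (0:𝕜) • U 𝕜 z) = id := by funext z; simp
    rw [this]
    exact Function.bijective_id
  obtain ⟨W, hW1, hW2, hW3⟩ := exists_inverse 𝕜 (X 𝕜) (V 𝕜) (Vpow_norm 𝕜) c⁻¹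
  constructor
  · have hker : ∀ z : E 𝕜, z - c • U 𝕜 z = 0 → z = 0 := by
      intro z hz
      have h1 : ∀ m, z.1 m = c • z.1 (m + 1) := by
        intro m
        have := congrArg (fun z : E 𝕜 => z.1 m) hz
        exact sub_eq_zero.mp this
      have h2 : ∀ m, z.1 (m + 1) = 0 := by
        intro m
        have e : z.1 (m + 1) - c⁻¹ • V 𝕜 (z.1 (m + 1)) = 0 := by
          rw [z.2 m, h1 m, smul_smul, inv_mul_cancel₀ hc, one_smul, sub_self]
        have := hW2 (z.1 (m + 1))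
        rw [e] at this
        rw [← this]; simp
      apply Subtype.ext
      funext m
      rw [h1 m, h2 m]
      simp
    intro x y hxy
    have : (x - y) - c • U 𝕜 (x - y) = 0 := by
      have h : x - c • U 𝕜 x = y - c • U 𝕜 y := hxy
      rw [map_sub, smul_sub]
      calc x - y - (c • U 𝕜 x - c • U 𝕜 y) = (x - c • U 𝕜 x) - (y - c • U 𝕜 y) := by abel
        _ = 0 := by rw [h, sub_self]
    exact sub_eq_zero.mp (hker _ this)
  · intro y
    refine ⟨⟨fun m => -(c⁻¹ • V 𝕜 (W (y.1 m))), ?_⟩, ?_⟩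
    · intro m
      rw [map_neg, map_smul, ← hW3 (y.1 (m + 1)), y.2 m]
    · apply Subtype.ext
      funext m
      show -(c⁻¹ • V 𝕜 (W (y.1 m))) - c • -(c⁻¹ • V 𝕜 (W (y.1 (m + 1)))) = y.1 m
      rw [smul_neg, smul_smul, mul_inv_cancel₀ hc, one_smul, sub_neg_eq_add,
        ← hW3 (y.1 (m + 1)), y.2 m]
      have := hW1 (y.1 m)
      rw [neg_add_eq_sub]
      exact this

lemma diverges (c : 𝕜) (hc : c ≠ 0) (x y : E 𝕜)
    (h : Tendsto (fun n => ∑ k ∈ Finset.range n, c ^ k • (U 𝕜 ^ k) x) atTop (𝓝 y)) : x = 0 := by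
  have h1 : Tendsto (fun n => c ^ n • (U 𝕜 ^ n) x) atTop (𝓝 0) := by
    have h2 := (h.comp (tendsto_add_atTop_nat 1)).sub h
    rw [sub_self] at h2
    refine h2.congr fun n => ?_
    simp [Finset.sum_range_succ]
  apply Subtype.ext
  funext m
  have h3 : Tendsto (fun n => ‖c‖ ^ n * ‖x.1 (m + n)‖) atTop (𝓝 0) := by
    have hcont : Continuous fun z : E 𝕜 => ‖z.1 m‖ :=
      ((continuous_apply m).comp continuous_subtype_val).norm
    have h4 := (hcont.tendsto 0).comp h1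
    have h5 : ‖((0 : E 𝕜).1 m)‖ = 0 := by
      show ‖(0 : X 𝕜)‖ = 0
      exact norm_zero
    rw [h5] at h4
    refine h4.congr fun n => ?_
    show ‖c ^ n • ((U 𝕜 ^ n) x).1 m‖ = _
    rw [Upow_apply, norm_smul, norm_pow]
  have h6 := h3.mul (FloorSemiring.tendsto_pow_div_factorial_atTop ‖c‖⁻¹)
  rw [mul_zero] at h6
  have h7 : ∀ n, ‖x.1 m‖ ≤ ‖c‖ ^ n * ‖x.1 (m + n)‖ * (‖c‖⁻¹ ^ n / (n.factorial : ℝ)) := by
    intro n
    have h8 := Vpow_norm 𝕜 n (x.1 (m + n))
    rw [Vpow_mem 𝕜 x.2] at h8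
    have hc' : ‖c‖ ≠ 0 := norm_ne_zero_iff.mpr hc
    refine h8.trans (le_of_eq ?_)
    rw [inv_pow]
    field_simp
  have h9 : ‖x.1 m‖ ≤ 0 := ge_of_tendsto' h6 h7
  exact norm_le_zero_iff.mp h9

/-- **Negative answer.** For `𝕜 = ℝ` or `ℂ` there are a nonzero Frechet space `E` over `𝕜`
(a complete Hausdorff uniform vector space whose topology is given by an increasing sequence of
seminorms) and a continuous linear `U : E → E` such that `I - c U` is bijective for every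
scalar `c`, while for every scalar `c ≠ 0` and every vector `x ≠ 0` the partial sums of the
Neumann series `∑ c ^ k U ^ k x` have no limit at all. -/
theorem result (𝕜 : Type) [RCLike 𝕜] :
    ∃ (E : Type) (_ : AddCommGroup E) (_ : Module 𝕜 E) (_ : UniformSpace E)
      (_ : IsUniformAddGroup E) (_ : ContinuousSMul 𝕜 E) (_ : CompleteSpace E) (_ : T2Space E)
      (p : SeminormFamily 𝕜 E ℕ) (U : E →L[𝕜] E),
      Monotone p ∧ WithSeminorms p ∧ (∃ x : E, x ≠ 0) ∧
      (∀ c : 𝕜, Function.Bijective (fun x : E => x - c • U x)) ∧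
      ∀ c : 𝕜, c ≠ 0 → ∀ x : E, x ≠ 0 →
        ¬ ∃ y : E, Tendsto (fun n => ∑ k ∈ Finset.range n, c ^ k • (U^[k]) x) atTop (𝓝 y) := by
  refine ⟨E 𝕜, inferInstance, inferInstance, inferInstance,
    AddSubgroup.isUniformAddGroup (E 𝕜).toAddSubgroup, inferInstance,
    (E_closed 𝕜).completeSpace_coe, inferInstance, p 𝕜, U 𝕜, p_mono 𝕜, withSeminorms_p 𝕜,
    nontrivial_E 𝕜, bijective 𝕜, ?_⟩
  rintro c hc x hx ⟨y, hy⟩
  apply hx
  apply diverges 𝕜 c hc x y
  refine hy.congr fun n => ?_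
  apply Finset.sum_congr rfl
  intro k _
  rw [FunLike.coe_pow_eq_iterate]

end Pool.Agent.Results.MP_18d2fb_an.Neumann
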